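import Pool.Agent.W941.MG.Stm

/-! MG-REG: regular families form a subalgebra -/

namespace Pool.Agent.W637.MG

open MvPolynomial Pool.Agent.W941.MG

set_option autoImplicit false

variable {b n : ℕ} {N : Type} {A : Fin b → N → Finset (Fin n)}

theorem ind_mul (S S' : Fin b → Finset (Fin n)) :
    ind A S * ind A S' = ind A (fun j => S j ∪ S' j) := by
  classical
  funext x
  simp only [ind, Pi.mul_apply]
  by_cases h1 : ∀ j, S j ⊆ A j (x j)
  · by_cases h2 : ∀ j, S' j ⊆ A j (x j)
    · rw [if_pos h1, if_pos h2, if_pos (fun j => Finset.union_subset (h1 j) (h2 j)), one_mul]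
    · rw [if_neg h2, mul_zero, if_neg]
      intro h3
      exact h2 fun j => Finset.subset_union_right.trans (h3 j)
  · rw [if_neg h1, zero_mul, if_neg]
    intro h3
    exact h1 fun j => Finset.subset_union_left.trans (h3 j)

theorem fl_mul {a a' : Fin b →₀ ℕ} {F G : (Fin b → N) → ℂ} (hF : F ∈ Fl A a) (hG : G ∈ Fl A a') :
    F * G ∈ Fl A (a + a') := by
  induction hF using Submodule.span_induction with
  | mem F hF =>
    obtain ⟨S, hS, rfl⟩ := hF
    induction hG using Submodule.span_induction with
    | mem G hG =>
      obtain ⟨S', hS', rfl⟩ := hG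
      rw [ind_mul]
      refine Submodule.subset_span ⟨_, fun j => ?_, rfl⟩
      exact (Finset.card_union_le _ _).trans (add_le_add (hS j) (hS' j))
    | zero => rw [mul_zero]; exact Submodule.zero_mem _
    | add G G' _ _ h1 h2 => rw [mul_add]; exact Submodule.add_mem _ h1 h2
    | smul c G _ h1 => rw [mul_smul_comm]; exact Submodule.smul_mem _ _ h1
  | zero => rw [zero_mul]; exact Submodule.zero_mem _
  | add G G' _ _ h1 h2 => rw [add_mul]; exact Submodule.add_mem _ h1 h2
  | smul c G _ h1 => rw [smul_mul_assoc]; exact Submodule.smul_mem _ _ h1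

theorem fl : FlStmt := fun _ _ _ _ _ _ _ _ hF hG => fl_mul hF hG

theorem cf_mul (p q : Fam b N) (a : Fin b →₀ ℕ) : cf a (p * q) =
    ∑ c ∈ Finset.HasAntidiagonal.antidiagonal a, cf c.1 p * cf c.2 q := by
  funext x
  simp only [cf, Pi.mul_apply, Finset.sum_apply, coeff_mul]

theorem reg_mul {p q : Fam b N} (hp : Reg A p) (hq : Reg A q) : Reg A (p * q) := by
  intro a
  rw [cf_mul]
  refine Submodule.sum_mem _ fun c hc => ?_
  replace hc := Finset.HasAntidiagonal.mem_antidiagonal.1 hc
  rw [← hc]
  exact fl_mul (hp _) (hq _)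

theorem reg_add {p q : Fam b N} (hp : Reg A p) (hq : Reg A q) : Reg A (p + q) := by
  intro a
  have : cf a (p + q) = cf a p + cf a q := by
    funext x; simp [cf]
  rw [this]
  exact Submodule.add_mem _ (hp a) (hq a)

theorem ind_empty : ind A (fun _ => ∅) = 1 := by
  funext x
  simp [ind]

theorem reg_alg (z : ℂ) : Reg A (algebraMap ℂ (Fam b N) z) := by
  classical
  intro a
  by_cases ha : a = 0
  · have : cf a (algebraMap ℂ (Fam b N) z) = z • ind A (fun _ => ∅) := by
      rw [ind_empty]
      funext x
      subst ha
      simp [cf, Pi.algebraMap_apply, MvPolynomial.algebraMap_eq]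
    rw [this]
    refine Submodule.smul_mem _ _ (Submodule.subset_span ⟨_, fun j => ?_, rfl⟩)
    simp
  · have : cf a (algebraMap ℂ (Fam b N) z) = 0 := by
      funext x
      simp [cf, Pi.algebraMap_apply, MvPolynomial.algebraMap_eq, coeff_C, Ne.symm ha]
    rw [this]
    exact Submodule.zero_mem _

theorem reg_tm {m : Fin b → ℕ} (e : Fin n ≃ (Σ j, Fin (m j))) (ω : Fin b → ℂ) (i c : Fin n) :
    Reg A (tm e ω A i c) := by
  classical
  intro a
  by_cases ha : a = Finsupp.single (e i).1 1
  · have : cf a (tm e ω A i c) = (ω (e i).1 ^ ((e i).2 : ℕ)) •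
        ind A (Function.update (fun _ => ∅) (e i).1 {c}) := by
      funext x
      subst ha
      simp only [cf, tm, ind, Pi.smul_apply, smul_eq_mul]
      by_cases hc : c ∈ A (e i).1 (x (e i).1)
      · rw [if_pos hc, if_pos]
        · rw [coeff_C_mul, coeff_X, if_pos rfl]
        · intro j
          by_cases hj : j = (e i).1
          · subst hj
            simpa using hc
          · rw [Function.update_of_ne hj]; simp
      · rw [if_neg hc, if_neg]
        · simp
        · intro h
          have := h (e i).1
          rw [Function.update_self] at this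
          exact hc (Finset.singleton_subset_iff.1 this)
    rw [this]
    refine Submodule.smul_mem _ _ (Submodule.subset_span ⟨_, fun j => ?_, rfl⟩)
    subst ha
    by_cases hj : j = (e i).1
    · subst hj
      simp
    · rw [Function.update_of_ne hj]; simp
  · have : cf a (tm e ω A i c) = 0 := by
      funext x
      simp only [cf, tm, Pi.zero_apply]
      split_ifs
      · rw [coeff_C_mul, coeff_X, if_neg (fun h => ha h.symm), mul_zero]
      · simp
    rw [this]
    exact Submodule.zero_mem _

theorem reg : RegStmt := by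
  intro b n N A
  refine ⟨⟨{ carrier := {p | Reg A p}
             mul_mem' := fun hp hq => reg_mul hp hq
             add_mem' := fun hp hq => reg_add hp hq
             algebraMap_mem' := fun z => reg_alg z }, fun p => Iff.rfl⟩, fun m e ω i c => reg_tm e ω i c⟩

end Pool.Agent.W637.MG
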